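import Mathlib

/-!
# Fractions of integral elements
-/

open Polynomial

namespace Pool.Agent.Lib.MP_2f3286_bir

/-- The `u, u⁻¹` lemma. -/
theorem exists_frac {B Ω E : Type*} [CommRing B] [Field Ω] [Algebra B Ω] [Field E]
    (hint : ∀ x : Ω, IsIntegral B x → ∃ b : B, algebraMap B Ω b = x) (ψ : B →+* E) (x : Ω) (n : ℕ) :
    ∀ P : B[X], P.natDegree ≤ n → aeval x P = 0 → P.map ψ ≠ 0 →
      ∃ a b : B, x * algebraMap B Ω b = algebraMap B Ω a ∧ (ψ a ≠ 0 ∨ ψ b ≠ 0) := by
  induction n with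
  | zero =>
    intro P hP h0 hne
    obtain ⟨c, rfl⟩ : ∃ c, P = C c := ⟨P.coeff 0, eq_C_of_natDegree_le_zero hP⟩
    refine ⟨0, c, ?_, Or.inr ?_⟩
    · rw [aeval_C] at h0
      rw [h0, mul_zero, map_zero]
    · intro h1
      exact hne (by rw [map_C, h1, C_0])
  | succ n ih =>
    intro P hP h0 hne
    set c := P.coeff (n + 1) with hc
    have hint' : IsIntegral B (c • x) := by
      rcases Nat.lt_or_ge P.natDegree (n + 1) with h | h
      · rw [hc, coeff_eq_zero_of_natDegree_lt h, zero_smul]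
        exact isIntegral_zero
      · have h1 : P.natDegree = n + 1 := le_antisymm hP h
        have h2 : c = P.leadingCoeff := by rw [hc, leadingCoeff, h1]
        rw [h2]
        exact isIntegral_leadingCoeff_smul P x h0
    obtain ⟨d, hd⟩ := hint _ hint'
    have hd' : x * algebraMap B Ω c = algebraMap B Ω d := by
      rw [hd, Algebra.smul_def, mul_comm]
    by_cases h1 : ψ c ≠ 0
    · exact ⟨d, c, hd', Or.inr h1⟩
    by_cases h2 : ψ d ≠ 0
    · exact ⟨d, c, hd', Or.inl h2⟩
    push Not at h1 h2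
    refine ih (P - monomial (n + 1) c + monomial n d) ?_ ?_ ?_
    · rw [natDegree_le_iff_coeff_eq_zero]
      intro N hN
      rw [coeff_add, coeff_sub, coeff_monomial, coeff_monomial]
      rw [if_neg (by omega : n ≠ N), add_zero]
      by_cases hN' : n + 1 = N
      · rw [if_pos hN', ← hN', ← hc, sub_self]
      · rw [if_neg hN', sub_zero]
        exact coeff_eq_zero_of_natDegree_lt (by omega)
    · rw [map_add, map_sub, h0, aeval_monomial, aeval_monomial, ← hd']
      ring
    · rw [Polynomial.map_add, Polynomial.map_sub, map_monomial, map_monomial, h1, h2]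
      simpa using hne

/-- Polynomial relations whose specialisation is not trivial. -/
theorem exists_rel {k Ω E : Type*} [Field k] [Field Ω] [Algebra k Ω] [Field E] [Algebra k E]
    {t x : Ω} (ht : Transcendental k t) {τ : E} (hτ : IsIntegral k τ)
    (h : ∃ p : k[X][X], p ≠ 0 ∧ eval₂ (aeval t : k[X] →ₐ[k] Ω).toRingHom x p = 0) :
    ∃ p : k[X][X], p.map (aeval τ : k[X] →ₐ[k] E).toRingHom ≠ 0 ∧
      eval₂ (aeval t : k[X] →ₐ[k] Ω).toRingHom x p = 0 := by
  classical
  obtain ⟨p₀, hp₀, hp₀'⟩ := h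
  let S : Set ℕ := {n | ∃ p : k[X][X], p ≠ 0 ∧
    eval₂ (aeval t : k[X] →ₐ[k] Ω).toRingHom x p = 0 ∧ p.leadingCoeff.natDegree = n}
  have hS : S.Nonempty := ⟨_, p₀, hp₀, hp₀', rfl⟩
  obtain ⟨p, hp, hp', hpn⟩ := Nat.sInf_mem hS
  refine ⟨p, ?_, hp'⟩
  intro h0
  set μ := minpoly k τ with hμ
  have hμ0 : μ ≠ 0 := minpoly.ne_zero hτ
  have hdvd : C μ ∣ p := by
    rw [C_dvd_iff_dvd_coeff]
    intro i
    apply minpoly.dvd
    have := congrArg (fun q => q.coeff i) h0
    simp only [coeff_map, coeff_zero] at this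
    exact this
  obtain ⟨q, hq⟩ := hdvd
  have hq0 : q ≠ 0 := by
    rintro rfl
    exact hp (by rw [hq, mul_zero])
  have hqv : eval₂ (aeval t : k[X] →ₐ[k] Ω).toRingHom x q = 0 := by
    rw [hq, eval₂_mul, eval₂_C] at hp'
    rcases mul_eq_zero.mp hp' with h1 | h1
    · exfalso
      exact ht ⟨μ, hμ0, h1⟩
    · exact h1
  have hle : sInf S ≤ q.leadingCoeff.natDegree := Nat.sInf_le ⟨q, hq0, hqv, rfl⟩
  have hlc : p.leadingCoeff = μ * q.leadingCoeff := by rw [hq, leadingCoeff_mul, leadingCoeff_C]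
  rw [hlc, natDegree_mul hμ0 (leadingCoeff_ne_zero.mpr hq0)] at hpn
  have hpos : 0 < μ.natDegree := minpoly.natDegree_pos hτ
  have hpn' : μ.natDegree + q.leadingCoeff.natDegree = sInf S := hpn
  omega

theorem exists_bivariate {k Ω : Type*} [Field k] [Field Ω] [Algebra k Ω]
    (htr : Algebra.trdeg k Ω = 1) {t : Ω} (ht : Transcendental k t) (x : Ω) :
    ∃ p : k[X][X], p ≠ 0 ∧ eval₂ (aeval t : k[X] →ₐ[k] Ω).toRingHom x p = 0 := by
  have hind : AlgebraicIndependent k ![t] := algebraicIndependent_iff_transcendental.mpr ht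
  have hbasis : IsTranscendenceBasis k ![t] :=
    hind.isTranscendenceBasis_of_lift_trdeg_le_of_finite (by rw [htr]; simp)
  obtain ⟨q, hq0, hq⟩ := hbasis.isAlgebraic.isAlgebraic x
  have hrange : Set.range ![t] = {t} := by simp
  have hmem : t ∈ Algebra.adjoin k (Set.range ![t]) := by
    rw [hrange]; exact Algebra.self_mem_adjoin_singleton k t
  let f : k[X] →ₐ[k] Algebra.adjoin k (Set.range ![t]) := aeval ⟨t, hmem⟩
  have hf : Function.Surjective f.toRingHom := by
    rintro ⟨y, hy⟩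
    have hy' := hy
    rw [hrange, Algebra.adjoin_singleton_eq_range_aeval] at hy'
    obtain ⟨P, hP⟩ := hy'
    refine ⟨P, Subtype.ext ?_⟩
    have h1 := aeval_algHom_apply (Algebra.adjoin k (Set.range ![t])).val ⟨t, hmem⟩ P
    exact h1.symm.trans hP
  obtain ⟨p, hp⟩ := Polynomial.map_surjective f.toRingHom hf q
  refine ⟨p, ?_, ?_⟩
  · rintro rfl
    exact hq0 (by rw [← hp, Polynomial.map_zero])
  · have h2 : (aeval t : k[X] →ₐ[k] Ω).toRingHom =
        (algebraMap (Algebra.adjoin k (Set.range ![t])) Ω).comp f.toRingHom := by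
      apply RingHom.ext
      intro P
      exact aeval_algHom_apply (Algebra.adjoin k (Set.range ![t])).val ⟨t, hmem⟩ P
    rw [h2, ← eval₂_map, hp]
    exact hq

/-- Every element of `Ω` is a fraction of elements of `B`, not both in the kernel of `ψ`. -/
theorem exists_frac' {k B Ω E : Type*} [Field k] [CommRing B] [Field Ω] [Algebra B Ω] [Algebra k B]
    [Algebra k Ω] [IsScalarTower k B Ω] [Field E] [Algebra k E] (htr : Algebra.trdeg k Ω = 1)
    (hint : ∀ x : Ω, IsIntegral B x → ∃ b : B, algebraMap B Ω b = x) (ψ : B →ₐ[k] E)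
    {t : B} (ht : Transcendental k (algebraMap B Ω t)) (hτ : IsIntegral k (ψ t)) (x : Ω) :
    ∃ a b : B, x * algebraMap B Ω b = algebraMap B Ω a ∧ (ψ a ≠ 0 ∨ ψ b ≠ 0) := by
  obtain ⟨p, hp, hp'⟩ := exists_rel ht hτ (exists_bivariate htr ht x)
  refine exists_frac hint (ψ : B →+* E) x _ (p.map (aeval t : k[X] →ₐ[k] B).toRingHom) le_rfl ?_ ?_
  · rw [aeval_def, eval₂_map]
    have h2 : (algebraMap B Ω).comp (aeval t : k[X] →ₐ[k] B).toRingHom =
        (aeval (algebraMap B Ω t) : k[X] →ₐ[k] Ω).toRingHom := by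
      apply RingHom.ext
      intro P
      exact (aeval_algebraMap_apply Ω t P).symm
    rw [h2]; exact hp'
  · rw [Polynomial.map_map]
    have h2 : (ψ : B →+* E).comp (aeval t : k[X] →ₐ[k] B).toRingHom =
        (aeval (ψ t) : k[X] →ₐ[k] E).toRingHom := by
      apply RingHom.ext
      intro P
      exact (aeval_algHom_apply ψ t P).symm
    rw [h2]; exact hp

end Pool.Agent.Lib.MP_2f3286_bir
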