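import Mathlib
import Pool.Agent.Lib.MP_2f3286_ag.CoreH
import Pool.Agent.Lib.MP_2f3286_bir.Loc

/-!
# Sections and places of the algebraic closure of a function field
-/

open IsDedekindDomain NumberField
open Pool.Agent.Lib.MP_2f3286_ag

namespace Pool.Agent.Lib.MP_2f3286_bir

/-- The section `s : Gal(kb/k) → Gal(Ω/K)` is, over the field `E`, the section of the place `(A, φ)`
of `Ω`: `A` is a valuation ring of `Ω` containing `kb`, `φ : A → Eb` is a homomorphism to an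
algebraic closure `Eb` of `E` which extends the embedding `ι : kb → Eb` and whose kernel is the
maximal ideal of `A` (elements of `A` outside the kernel are units of `A`), and `Gal(Eb/E)`, acting
on `Ω` through its restriction to `kb` and `s`, preserves `A` and commutes with `φ`. -/
def IsPlaceOf {k kb K Ω : Type*} [Field k] [Field kb] [Algebra k kb] [Field K] [Field Ω]
    [Algebra K Ω] [Algebra kb Ω] (s : Gal(kb/k) →* Gal(Ω/K)) (E : Type*) {Eb : Type*} [Field E]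
    [Field Eb] [Algebra E Eb] (ι : kb →+* Eb) (A : ValuationSubring Ω) (φ : A →+* Eb) : Prop :=
  (∀ a : kb, ∃ h : algebraMap kb Ω a ∈ A, φ ⟨algebraMap kb Ω a, h⟩ = ι a) ∧
  (∀ x : A, φ x ≠ 0 → (x : Ω)⁻¹ ∈ A) ∧
  ∀ (σ : Gal(kb/k)) (τ : Gal(Eb/E)), (∀ a, ι (σ a) = τ (ι a)) →
    ∀ x : A, ∃ h : s σ x ∈ A, φ ⟨s σ x, h⟩ = τ (φ x)

theorem mem_unitRing {R Ω : Type*} [CommRing R] [Field Ω] [IsAlgClosed Ω] [Algebra R Ω] {c : Ω}
    (hc : IsIntegral R c) : c ∈ unitRing R Ω := by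
  obtain ⟨x, hx⟩ : ∃ x : Ω, x ^ 2 - c * x + 1 = 0 := by
    have hdeg : (Polynomial.X ^ 2 - Polynomial.C c * Polynomial.X + 1 : Polynomial Ω).degree ≠ 0 := by
      have : (Polynomial.X ^ 2 - Polynomial.C c * Polynomial.X + 1 : Polynomial Ω).degree = 2 := by
        compute_degree!
      rw [this]; norm_num
    obtain ⟨x, hx⟩ := IsAlgClosed.exists_root _ hdeg
    exact ⟨x, by simpa [Polynomial.IsRoot] using hx⟩
  have hx1 : x * (c - x) = 1 := by linear_combination -hx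
  have hx0 : x ≠ 0 := by
    rintro rfl
    rw [zero_mul] at hx1
    exact zero_ne_one hx1
  have hinv : x⁻¹ = c - x := inv_eq_of_mul_eq_one_right hx1
  have hxint : IsIntegral R x := by
    have h1 : IsIntegral (integralClosure R Ω) x := by
      refine ⟨Polynomial.X ^ 2 - Polynomial.C ⟨c, hc⟩ * Polynomial.X + 1, ?_, ?_⟩
      · monicity!
      · simp only [Polynomial.eval₂_add, Polynomial.eval₂_sub, Polynomial.eval₂_pow,
          Polynomial.eval₂_X, Polynomial.eval₂_mul, Polynomial.eval₂_C, Polynomial.eval₂_one]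
        exact hx
    exact isIntegral_trans x h1
  have hxinv : IsIntegral R x⁻¹ := by
    rw [hinv]; exact hc.sub hxint
  have h2 : c = x + x⁻¹ := by rw [hinv]; ring
  rw [h2]
  refine add_mem (Subring.subset_closure ⟨hxint, hxinv⟩) (Subring.subset_closure ⟨hxinv, ?_⟩)
  rw [inv_inv]; exact hxint

theorem place_layer {k : Type*} [Field k] [NumberField k] {K : Type*} [Field K] [Algebra k K]
    (htr : Algebra.trdeg k K = 1)
    {Ω : Type*} [Field Ω] [Algebra K Ω] [Algebra.IsAlgebraic K Ω]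
    [Algebra (AlgebraicClosure k) Ω] [Algebra k Ω]
    [IsScalarTower k K Ω] [IsScalarTower k (AlgebraicClosure k) Ω]
    (s : Gal(AlgebraicClosure k/k) →* Gal(Ω/K))
    (R : Subalgebra k K) (t : R) (ht : Transcendental k (t : K))
    {V : Type*} [Nonempty V] (pl : V → HeightOneSpectrum (𝓞 k))
    (ι : ∀ v : V, AlgebraicClosure k →ₐ[k] AlgebraicClosure ((pl v).adicCompletion k))
    (A : V → ValuationSubring Ω)
    (φ : ∀ v, A v →+* AlgebraicClosure ((pl v).adicCompletion k))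
    (hφ : ∀ v, IsPlaceOf s ((pl v).adicCompletion k)
      (ι v : _ →+* AlgebraicClosure ((pl v).adicCompletion k)) (A v) (φ v))
    (ψ : integralClosure R Ω →+* AlgebraicClosure k) (hψ : Respects s k (RingHom.id _) ψ)
    (hφψ : ∀ v, ∀ b : integralClosure R Ω, ∃ h : (b : Ω) ∈ A v, φ v ⟨b, h⟩ = ι v (ψ b)) :
    ∃ (A₀ : ValuationSubring Ω) (ψ₀ : A₀ →+* AlgebraicClosure k),
      IsPlaceOf s k (RingHom.id _) A₀ ψ₀ ∧
      ∀ v, A v = A₀ ∧ ∀ (x : A v) (y : A₀), (x : Ω) = y → φ v x = ι v (ψ₀ y) := by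
  classical
  have htow' : IsScalarTower k R Ω := IsScalarTower.of_algebraMap_eq fun x => by
    rw [IsScalarTower.algebraMap_apply k K Ω]; rfl
  have hRM : ∀ r : R, algebraMap R Ω r = algebraMap K Ω (r : K) := fun r => rfl
  have hBk : ∀ a : AlgebraicClosure k, IsIntegral R (algebraMap (AlgebraicClosure k) Ω a) := by
    intro a
    have h1 : IsIntegral k a := Algebra.IsIntegral.isIntegral a
    have h2 : IsIntegral k (algebraMap (AlgebraicClosure k) Ω a) := h1.algebraMap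
    exact h2.tower_top
  have hBs : ∀ σ, ∀ b : Ω, IsIntegral R b → IsIntegral R (s σ b) := by
    intro σ b hb
    exact hb.map (((s σ).toAlgHom.restrictScalars R : Ω →ₐ[R] Ω))
  let B := integralClosure R Ω
  let _ : Algebra k B := ((algebraMap R B).comp (algebraMap k R)).toAlgebra
  have htowB : IsScalarTower k B Ω := IsScalarTower.of_algebraMap_eq fun x => by
    rw [IsScalarTower.algebraMap_apply k R Ω]; rfl
  have hcomm : ∀ a : k, ψ (algebraMap k B a) = algebraMap k (AlgebraicClosure k) a := by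
    intro a
    rw [hψ.1 (algebraMap k _ a) (algebraMap k B a) ?_]
    · rfl
    · change algebraMap B Ω (algebraMap k B a) = _
      rw [← IsScalarTower.algebraMap_apply, ← IsScalarTower.algebraMap_apply]
  let ψ' : B →ₐ[k] AlgebraicClosure k := { ψ with commutes' := hcomm }
  have hψ' : ∀ b, ψ' b = ψ b := fun b => rfl
  have hfrac : ∀ x : Ω, ∃ a b : B, x * b = a ∧ (ψ a ≠ 0 ∨ ψ b ≠ 0) := by
    intro x
    have ht' : Transcendental k (algebraMap B Ω (algebraMap R B t)) := by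
      have h1 : algebraMap B Ω (algebraMap R B t) = algebraMap K Ω (t : K) := rfl
      rw [h1]
      exact (transcendental_algebraMap_iff (algebraMap K Ω).injective).mpr ht
    exact exists_frac' (trdeg_top htr) (fun x hx => ⟨⟨x, isIntegral_trans x hx⟩, rfl⟩) ψ' ht'
      (Algebra.IsIntegral.isIntegral _) x
  -- description of `A v`
  have hmem : ∀ v, ∀ x : Ω, ∀ a b : B, x * b = a → ψ b ≠ 0 → ∃ h : x ∈ A v,
      φ v ⟨x, h⟩ = ι v (ψ a / ψ b) := by
    intro v x a b hab hb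
    obtain ⟨hbA, hb'⟩ := hφψ v b
    obtain ⟨haA, ha'⟩ := hφψ v a
    have hb0 : φ v ⟨b, hbA⟩ ≠ 0 := by rw [hb', map_ne_zero]; exact hb
    have hb1 : (b : Ω)⁻¹ ∈ A v := (hφ v).2.1 _ hb0
    have hb2 : (b : Ω) ≠ 0 := by
      intro h0
      apply hb0
      have h3 : (⟨b, hbA⟩ : A v) = 0 := Subtype.ext h0
      rw [h3, map_zero]
    have hx : x = a * (b : Ω)⁻¹ := by rw [← hab, mul_inv_cancel_right₀ hb2]
    have hxA : x ∈ A v := by rw [hx]; exact mul_mem haA hb1
    refine ⟨hxA, ?_⟩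
    have h4 : (⟨x, hxA⟩ : A v) * ⟨b, hbA⟩ = ⟨a, haA⟩ := Subtype.ext hab
    have h5 := congrArg (φ v) h4
    rw [map_mul, ha', hb'] at h5
    rw [map_div₀, eq_div_iff (by rw [map_ne_zero]; exact hb)]
    exact h5
  have hden : ∀ v, ∀ x : Ω, x ∈ A v → ∃ a b : B, x * b = a ∧ ψ b ≠ 0 := by
    intro v x hx
    obtain ⟨a, b, hab, h⟩ := hfrac x
    refine ⟨a, b, hab, ?_⟩
    intro hb
    rcases h with h | h
    · obtain ⟨hbA, hb'⟩ := hφψ v b
      obtain ⟨haA, ha'⟩ := hφψ v a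
      have h4 : (⟨x, hx⟩ : A v) * ⟨b, hbA⟩ = ⟨a, haA⟩ := Subtype.ext hab
      have h5 := congrArg (φ v) h4
      rw [map_mul, ha', hb', hb, map_zero, mul_zero] at h5
      exact h ((map_eq_zero _).mp h5.symm)
    · exact h hb
  obtain ⟨v₀⟩ : Nonempty V := inferInstance
  have hAeq : ∀ v, A v = A v₀ := by
    intro v
    ext x
    constructor
    · intro hx
      obtain ⟨a, b, hab, hb⟩ := hden v x hx
      exact (hmem v₀ x a b hab hb).1
    · intro hx
      obtain ⟨a, b, hab, hb⟩ := hden v₀ x hx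
      exact (hmem v x a b hab hb).1
  -- descent of the place
  have hdesc : ∃ ψ₀ : A v₀ →+* AlgebraicClosure k, ∀ x, ι v₀ (ψ₀ x) = φ v₀ x := by
    let _ : Algebra (AlgebraicClosure k) (AlgebraicClosure ((pl v₀).adicCompletion k)) :=
      (ι v₀).toRingHom.toAlgebra
    obtain ⟨Ψ, hΨ⟩ := exists_descent (F := AlgebraicClosure k) (φ v₀) (by
      rintro ⟨x, hx⟩
      obtain ⟨a, b, hab, hb⟩ := hden v₀ x hx
      obtain ⟨_, h⟩ := hmem v₀ x a b hab hb
      exact ⟨ψ a / ψ b, h.symm⟩)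
    exact ⟨Ψ, hΨ⟩
  obtain ⟨ψ₀, hψ₀⟩ := hdesc
  have hval : ∀ x : A v₀, ∀ a b : B, (x : Ω) * b = a → ψ b ≠ 0 → ψ₀ x = ψ a / ψ b := by
    intro x a b hab hb
    apply (ι v₀).toRingHom.injective
    change ι v₀ (ψ₀ x) = ι v₀ (ψ a / ψ b)
    rw [hψ₀]
    exact (hmem v₀ x a b hab hb).2
  refine ⟨A v₀, ψ₀, ⟨?_, ?_, ?_⟩, fun v => ⟨hAeq v, ?_⟩⟩
  · intro a
    obtain ⟨h, h'⟩ := (hφ v₀).1 a
    refine ⟨h, ?_⟩
    apply (ι v₀).toRingHom.injective
    change ι v₀ (ψ₀ _) = ι v₀ a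
    rw [hψ₀]
    exact h'
  · intro x hx
    refine (hφ v₀).2.1 x ?_
    rw [← hψ₀, map_ne_zero]
    exact hx
  · intro σ τ hστ x
    have hτ : ∀ a, τ a = σ a := fun a => (hστ a).symm
    obtain ⟨a, b, hab, hb⟩ := hden v₀ x x.2
    let sB : B → B := fun c => ⟨s σ c, hBs σ c c.2⟩
    have hsψ : ∀ c, ψ (sB c) = σ (ψ c) := fun c => hψ.2 σ σ (fun a => rfl) c (sB c) rfl
    have hab' : s σ (x : Ω) * (sB b : B) = (sB a : B) := by
      change s σ (x : Ω) * s σ (b : Ω) = s σ (a : Ω)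
      rw [← map_mul, hab]
    have hb' : ψ (sB b) ≠ 0 := by rw [hsψ, map_ne_zero]; exact hb
    obtain ⟨h1, h2⟩ := hmem v₀ (s σ x) (sB a) (sB b) hab' hb'
    refine ⟨h1, ?_⟩
    rw [hval ⟨s σ x, h1⟩ (sB a) (sB b) hab' hb', hsψ, hsψ, hτ, hval x a b hab hb, map_div₀]
  · intro x y hxy
    obtain ⟨a, b, hab, hb⟩ := hden v₀ y y.2
    rw [hval y a b hab hb]
    obtain ⟨h1, h2⟩ := hmem v x a b (by rw [hxy]; exact hab) hb
    exact h2

end Pool.Agent.Lib.MP_2f3286_bir
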